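import Mathlib
import Pool.Agent.Helper98.RegEnd.Moduli
import Pool.Agent.Helper98.RegEnd.Final

set_option autoImplicit false

namespace Pool.Agent.Results.MP_6903ed_ag.NoPCFCurves

open MvPolynomial
open Pool.Agent.Helper98.RegEnd

/-- **No fibre of `π : R_d^N → M_d^{N-1}` contains a curve consisting of PCF maps.**

* A constructible subset of a fibre of `π` which is contained in the PCF locus is finite.
* Let `C = Spec B` be an irreducible affine variety and let `φ : C → R_d^N` be a map with closed
  graph (for instance a morphism), with image in the PCF locus and with `π ∘ φ` constant. Then `φ`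
  is constant.
* A family of regular polynomial endomorphisms of degree `d` over an irreducible affine variety,
  all of whose members are PCF, and whose restriction to the hyperplane at infinity stays in one
  conjugacy class, has only one conjugacy class of members. -/
theorem result {d N : ℕ} (hd : 2 ≤ d) (hN : 2 ≤ N) :
    (∀ (Z : Set (RSpace d N)) (m : MSpace d N), IsConstructible Z → Z ⊆ PCFLocus d N →
      (∀ x ∈ Z, piMap hd x = m) → Z.Finite) ∧
    (∀ (B : Type) [CommRing B] [IsDomain B] [Algebra ℂ B] [Algebra.FiniteType ℂ B]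
      (φ : (B →ₐ[ℂ] ℂ) → RSpace d N) (m : MSpace d N), HasClosedGraph φ →
      (∀ t, φ t ∈ PCFLocus d N) → (∀ t, piMap hd (φ t) = m) → ∀ s t, φ s = φ t) ∧
    (∀ (B : Type) [CommRing B] [IsDomain B] [Algebra ℂ B] [Algebra.FiniteType ℂ B]
      (f : Fin N → MvPolynomial (Fin N) B)
      (hf : ∀ t : B →ₐ[ℂ] ℂ, IsRegularEnd d (member f t)) (m : MSpace d N),
      (∀ t, RSpace.mk ⟨member f t, hf t⟩ ∈ PCFLocus d N) →
      (∀ t, piMap hd (RSpace.mk ⟨member f t, hf t⟩) = m) →
      ∀ s t, RSpace.mk ⟨member f s, hf s⟩ = RSpace.mk ⟨member f t, hf t⟩) :=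
  ⟨fun Z m hZ hP hm => finite_of_constructible hd hN Z m hZ hP hm,
    fun _ _ _ _ _ φ m hφ hP hm s t => constant_of_closedGraph hd hN φ m hφ hP hm s t,
    fun _ _ _ _ _ f hf m hP hm s t => constant_of_family hd hN f hf m hP hm s t⟩

end Pool.Agent.Results.MP_6903ed_ag.NoPCFCurves
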